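import Mathlib
import Pool.Agent.Y83.NP.Tz
import Pool.Agent.H922R2.K2

/-!
# Trapezoidal pairs are not automorphisms; composition of Keller maps
-/

set_option autoImplicit false

open MvPolynomial

namespace Pool.Agent.X39.KM

open Pool.Agent.H938R2.JC (Good J sw J_sw)

/-- the convex hull of the support of `F` and the origin is the trapezoid `T_{m,n}` -/
def Trap (m n : ℕ) (F : MvPolynomial (Fin 2) ℂ) : Prop :=
  convexHull ℝ (insert ((0:ℝ), (0:ℝ))
      ((fun d : Fin 2 →₀ ℕ => ((d 0 : ℝ), (d 1 : ℝ))) '' (↑F.support : Set (Fin 2 →₀ ℕ))))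
    = {p : ℝ × ℝ | 0 ≤ p.2 ∧ p.2 ≤ (n : ℝ) ∧ 0 ≤ p.1 ∧ p.1 ≤ (m : ℝ) + (n : ℝ) - p.2}

/-- A trapezoidal pair with nonzero constant bracket does not generate the polynomial ring. -/
theorem trap_bad {a b m n : ℕ} (hm : 0 < m) (hn : 0 < n) (ham : a ∣ m) (han : a ∣ n)
    (hab : Nat.gcd a b = 1) (ha : 2 ≤ a) (hb : 2 ≤ b) {F G : MvPolynomial (Fin 2) ℂ}
    (h1 : Trap m n F) (h4 : Trap (b * m / a) (b * n / a) G) {c : ℂ} (hc : c ≠ 0)
    (h5 : pderiv 0 F * pderiv 1 G - pderiv 1 F * pderiv 0 G = C c) : ¬ Good F G := by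
  obtain ⟨p, rfl⟩ := ham
  obtain ⟨q, rfl⟩ := han
  have ha0 : 0 < a := by omega
  have hp : 0 < p := Nat.pos_of_ne_zero (by rintro rfl; simp at hm)
  have hq : 0 < q := Nat.pos_of_ne_zero (by rintro rfl; simp at hn)
  have e1 : b * (a * q) / a = b * q := by
    have : b * (a * q) = b * q * a := by ring
    rw [this, Nat.mul_div_cancel _ ha0]
  have e2 : b * (a * p) / a = b * p := by
    have : b * (a * p) = b * p * a := by ring
    rw [this, Nat.mul_div_cancel _ ha0]
  rw [e1, e2] at h4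
  obtain ⟨f1, f2⟩ := Pool.Agent.TH207.Tz.hull (Nat.mul_pos ha0 hq) h1
  obtain ⟨g1, g2⟩ := Pool.Agent.TH207.Tz.hull (Nat.mul_pos (by omega) hq) h4
  obtain ⟨⟨-, hbad⟩, -⟩ := Pool.Agent.Y83.NP.data ha hb hab hp hq hc h5 f1 f2 g1 g2
  intro hg
  exact hbad (Good.of_equiv sw.symm (by
    have e3 : sw.symm (sw F) = F := AlgEquiv.symm_apply_apply _ _
    have e4 : sw.symm (sw G) = G := AlgEquiv.symm_apply_apply _ _
    rw [e3, e4]
    exact hg))

/-- surjectivity of the substitution means that the pair generates the polynomial ring -/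
theorem good_of_surj {F G : MvPolynomial (Fin 2) ℂ}
    (h : Function.Surjective (aeval ![F, G] : MvPolynomial (Fin 2) ℂ →ₐ[ℂ] MvPolynomial (Fin 2) ℂ)) :
    Good F G := by
  unfold Good
  have hr : Set.range ![F, G] = {F, G} := by
    ext x
    simp only [Set.mem_range, Fin.exists_fin_two, Set.mem_insert_iff, Set.mem_singleton_iff,
      Matrix.cons_val_zero, Matrix.cons_val_one]
    rw [eq_comm (a := F), eq_comm (a := G)]
  rw [← hr, Algebra.adjoin_range_eq_range_aeval, AlgHom.range_eq_top]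
  exact h

end Pool.Agent.X39.KM
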