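import Mathlib
import Pool.Agent.X39.KM.Base
import Pool.Agent.H924J.J6

/-!
# Keller endomorphisms of the polynomial ring in two variables
-/

set_option autoImplicit false

open MvPolynomial

namespace Pool.Agent.X39.KM

open Pool.Agent.H922R2 (jac aeval_injective)

/-- the polynomial ring in two variables over the complex numbers -/
abbrev PC : Type := MvPolynomial (Fin 2) ℂ

/-- The Jacobian determinant of `(θ x, θ y)`. -/
noncomputable def jd (θ : PC →ₐ[ℂ] PC) : PC :=
  pderiv 0 (θ (X 0)) * pderiv 1 (θ (X 1)) - pderiv 1 (θ (X 0)) * pderiv 0 (θ (X 1))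

/-- Keller endomorphisms: the Jacobian determinant is a nonzero constant. -/
def Kel (θ : PC →ₐ[ℂ] PC) : Prop := ∃ c : ℂ, c ≠ 0 ∧ jd θ = C c

theorem end_eq (θ : PC →ₐ[ℂ] PC) : θ = aeval (fun i => θ (X i)) := by
  apply MvPolynomial.algHom_ext
  intro i
  rw [aeval_X]

theorem jd_eq (θ : PC →ₐ[ℂ] PC) : (jac (fun i => θ (X i))).det = jd θ := by
  rw [Matrix.det_fin_two]
  rfl

theorem kel_iff (θ : PC →ₐ[ℂ] PC) : Kel θ ↔ IsUnit (jac (fun i => θ (X i))).det := by
  rw [jd_eq]
  constructor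
  · rintro ⟨c, hc, h⟩
    rw [h]
    exact (isUnit_iff_ne_zero.2 hc).map C
  · intro h
    obtain ⟨c, hc, h1⟩ := MvPolynomial.isUnit_iff_eq_C_of_isReduced.1 h
    exact ⟨c, hc.ne_zero, h1⟩

theorem Kel.inj {θ : PC →ₐ[ℂ] PC} (h : Kel θ) : Function.Injective θ := by
  rw [end_eq θ]
  exact aeval_injective _ ((kel_iff θ).1 h)

theorem kel_one : Kel (1 : PC →ₐ[ℂ] PC) := by
  refine ⟨1, one_ne_zero, ?_⟩
  unfold jd
  simp

theorem Kel.mul {α β : PC →ₐ[ℂ] PC} (hα : Kel α) (hβ : Kel β) : Kel (α * β) := by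
  rw [kel_iff] at hα hβ ⊢
  have h := Pool.Agent.H924J.isUnit_det_cmp (fun i => β (X i)) (fun i => α (X i)) hβ hα
  have e : (fun i => (α * β) (X i)) = Pool.Agent.H924J.cmp (fun i => β (X i)) (fun i => α (X i)) := by
    funext i
    show α (β (X i)) = aeval (fun i => α (X i)) (β (X i))
    rw [← end_eq α]
  rw [e]
  exact h

/-- words in Keller endomorphisms and a fixed Keller endomorphism -/
theorem kel_of_mem {θ : PC →ₐ[ℂ] PC} (hθ : Kel θ) {α : PC →ₐ[ℂ] PC}
    (h : α ∈ Submonoid.closure (insert θ {η | Kel η})) : Kel α := by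
  induction h using Submonoid.closure_induction with
  | mem x hx =>
    rcases hx with rfl | hx
    · exact hθ
    · exact hx
  | one => exact kel_one
  | mul x y _ _ hx hy => exact hx.mul hy

/-- a factor of a surjective composition -/
theorem surj_mid {α θ β : PC →ₐ[ℂ] PC} (hα : Kel α)
    (h : Function.Surjective (α * θ * β)) : Function.Surjective θ := by
  intro p
  obtain ⟨q, hq⟩ := h (α p)
  refine ⟨β q, ?_⟩
  apply hα.inj
  rw [← hq]
  rfl

/-- the endomorphism given by a pair -/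
noncomputable def en (F G : PC) : PC →ₐ[ℂ] PC := aeval ![F, G]

theorem en_X0 (F G : PC) : en F G (X 0) = F := by simp [en]

theorem en_X1 (F G : PC) : en F G (X 1) = G := by simp [en]

theorem jd_en (F G : PC) : jd (en F G) = pderiv 0 F * pderiv 1 G - pderiv 1 F * pderiv 0 G := by
  rw [jd, en_X0, en_X1]

/-- The conclusion for trapezoidal pairs: it is enough to show that a word containing the pair is
surjective. -/
theorem trap_zero {a b m n : ℕ} (hm : 0 < m) (hn : 0 < n) (ham : a ∣ m) (han : a ∣ n)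
    (hab : Nat.gcd a b = 1) (ha : 2 ≤ a) (hb : 2 ≤ b) {F G : PC}
    (h1 : Trap m n F) (h4 : Trap (b * m / a) (b * n / a) G)
    (h5 : ∃ c : ℂ, pderiv 0 F * pderiv 1 G - pderiv 1 F * pderiv 0 G = C c)
    (h : Kel (en F G) → Function.Surjective (en F G)) :
    pderiv 0 F * pderiv 1 G - pderiv 1 F * pderiv 0 G = 0 := by
  obtain ⟨c, hc⟩ := h5
  by_cases hc0 : c = 0
  · rw [hc, hc0, map_zero]
  · exfalso
    have hK : Kel (en F G) := ⟨c, hc0, by rw [jd_en]; exact hc⟩
    exact trap_bad hm hn ham han hab ha hb h1 h4 hc0 hc (good_of_surj (h hK))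

end Pool.Agent.X39.KM
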