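import Mathlib
import Pool.Agent.X39.KM.Comp
import Pool.Agent.H928R2.TriM5
import Pool.Agent.H922R2.L12

/-!
# Keller maps whose branch curve has symmetries
-/

set_option autoImplicit false

open MvPolynomial

namespace Pool.Agent.X39.KM

open Pool.Agent.H928R2.Pen (KK ιK)
open Pool.Agent.H922R2 (jac wtt)

/-- Euler's relation for an integral weight -/
theorem euler (w : Fin 2 → ℤ) (l : ℤ) (p : PC) (h : ∀ m ∈ p.support, wtt w m = l) :
    C ((w 0 : ℤ) : ℂ) * X 0 * pderiv 0 p + C ((w 1 : ℤ) : ℂ) * X 1 * pderiv 1 p =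
      C ((l : ℤ) : ℂ) * p := by
  have key : ∀ m ∈ p.support, C ((w 0 : ℤ) : ℂ) * X 0 * pderiv 0 (monomial m (coeff m p)) +
      C ((w 1 : ℤ) : ℂ) * X 1 * pderiv 1 (monomial m (coeff m p)) =
      C ((l : ℤ) : ℂ) * monomial m (coeff m p) := by
    intro m hm
    have h1 : w 0 * (m 0 : ℤ) + w 1 * (m 1 : ℤ) = l := by
      have := h m hm
      rw [wtt, Fin.sum_univ_two] at this
      exact this
    rw [mul_assoc, mul_assoc, X_mul_pderiv_monomial, X_mul_pderiv_monomial, ← h1]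
    simp only [nsmul_eq_mul, C_mul_monomial]
    rw [← map_natCast (C (R := ℂ) (σ := Fin 2)) (m 0), ← map_natCast (C (R := ℂ) (σ := Fin 2)) (m 1),
      C_mul_monomial, C_mul_monomial, C_mul_monomial, C_mul_monomial, ← map_add]
    congr 1
    push_cast
    ring
  conv_lhs => rw [p.as_sum]
  conv_rhs => rw [p.as_sum]
  simp only [map_sum, Finset.mul_sum]
  rw [← Finset.sum_add_distrib]
  exact Finset.sum_congr rfl key

/-- In some coordinates, the polynomial `D` divides its derivative along a nonzero vector field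
`a(x) ∂_x + (b(x) y + c(x)) ∂_y`, or `D` is mapped to an associate by an automorphism of infinite
order. -/
def Symm (D : PC) : Prop :=
  (∃ (Ψ : PC ≃ₐ[ℂ] PC) (a b c : Polynomial ℂ), (a ≠ 0 ∨ b ≠ 0 ∨ c ≠ 0) ∧
    Ψ D ∣ Polynomial.aeval (X 0) a * pderiv 0 (Ψ D) +
      (Polynomial.aeval (X 0) b * X 1 + Polynomial.aeval (X 0) c) * pderiv 1 (Ψ D)) ∨
  ∃ ψ : PC ≃ₐ[ℂ] PC, (∀ n : ℕ, 0 < n → ψ ^ n ≠ 1) ∧ Associated (ψ D) D

theorem Symm.lin {D : PC} (h : Symm D) :
    ∃ (Ψ : PC ≃ₐ[ℂ] PC) (a b c : Polynomial ℂ), (a ≠ 0 ∨ b ≠ 0 ∨ c ≠ 0) ∧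
    Ψ D ∣ Polynomial.aeval (X 0) a * pderiv 0 (Ψ D) +
      (Polynomial.aeval (X 0) b * X 1 + Polynomial.aeval (X 0) c) * pderiv 1 (Ψ D) := by
  rcases h with h | ⟨ψ, hinf, hl⟩
  · exact h
  obtain ⟨l, hl⟩ : ∃ l : ℂ, ψ D = C l * D := by
    obtain ⟨u, hu⟩ := hl.symm
    obtain ⟨c, _, hc⟩ := MvPolynomial.isUnit_iff_eq_C_of_isReduced.1 u.isUnit
    refine ⟨c, ?_⟩
    rw [← hu, hc, mul_comm]
  obtain ⟨θ, w, hw, h⟩ := Pool.Agent.H922R2.QH_main hinf hl
  obtain ⟨l', hl'⟩ : ∃ l' : ℤ, ∀ m ∈ (θ D).support, wtt w m = l' := by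
    rcases (θ D).support.eq_empty_or_nonempty with h0 | ⟨m', hm'⟩
    · exact ⟨0, fun m hm => by rw [h0] at hm; exact absurd hm (Finset.notMem_empty m)⟩
    · exact ⟨_, fun m hm => h m hm m' hm'⟩
  have he := euler w l' (θ D) hl'
  refine ⟨θ, Polynomial.C ((w 0 : ℤ) : ℂ) * Polynomial.X, Polynomial.C ((w 1 : ℤ) : ℂ), 0, ?_, ?_⟩
  · by_contra hcon
    push Not at hcon
    apply hw
    funext i
    have h0 : w 0 = 0 := by
      have h1 := hcon.1
      rcases mul_eq_zero.1 h1 with h2 | h2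
      · exact_mod_cast Polynomial.C_eq_zero.1 h2
      · exact absurd h2 Polynomial.X_ne_zero
    have h1 : w 1 = 0 := by exact_mod_cast Polynomial.C_eq_zero.1 hcon.2.1
    fin_cases i
    · exact h0
    · exact h1
  · refine ⟨C ((l' : ℤ) : ℂ), ?_⟩
    rw [mul_comm (θ D) (C ((l' : ℤ) : ℂ)), ← he, map_mul, Polynomial.aeval_C, Polynomial.aeval_X,
      Polynomial.aeval_C, map_zero, MvPolynomial.algebraMap_eq]
    ring

/-- The integral closure of the image of `θ` in the field `M` (inside the polynomial ring) is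
unramified over the image of `θ` outside of the curve `D = 0`: for every polynomial `q` in `M` which
is integral over the image of `θ` the brackets of `q` with `θ(x)` and `θ(y)` become integral after
multiplication by a power of `θ(D)`. -/
def BranchIn (θ : PC →ₐ[ℂ] PC) (M : IntermediateField ℂ (FractionRing PC)) (D : PC) : Prop :=
  ∀ q : PC, algebraMap PC (FractionRing PC) q ∈ M → IsIntegral θ.range q →
    ∀ j : Fin 2, ∃ N : ℕ, IsIntegral θ.range
      (θ D ^ N * (pderiv 0 (θ (X j)) * pderiv 1 q - pderiv 1 (θ (X j)) * pderiv 0 q))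

theorem curve {θ : PC →ₐ[ℂ] PC} (hθ : Kel θ) (M : IntermediateField ℂ (FractionRing PC))
    (hM : ∀ i, algebraMap PC (FractionRing PC) (θ (X i)) ∈ M) (D : PC) (hD : D ≠ 0)
    (hb : BranchIn θ M D) (hs : Symm D) (z : FractionRing PC) (hz : z ∈ M) :
    z ∈ IntermediateField.adjoin ℂ {algebraMap PC (FractionRing PC) (θ (X 0)),
      algebraMap PC (FractionRing PC) (θ (X 1))} := by
  obtain ⟨Ψ, a, b, c, habc, hdvd⟩ := hs.lin
  have hr : Algebra.adjoin ℂ (Set.range fun i => θ (X i)) = θ.range := by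
    rw [Algebra.adjoin_range_eq_range_aeval, ← end_eq θ]
  refine Pool.Agent.H928R2.Tri.main_M_aut (fun i => θ (X i)) ((kel_iff θ).1 hθ) M hM D hD ?_ Ψ a b c
    habc hdvd z hz
  rw [hr]
  intro q hq hqi j
  obtain ⟨N, hN⟩ := hb q hq hqi j
  refine ⟨N, ?_⟩
  rw [← end_eq θ]
  exact hN

/-- the case of the full function field -/
theorem curve_top {θ : PC →ₐ[ℂ] PC} (hθ : Kel θ) (D : PC) (hD : D ≠ 0)
    (hb : BranchIn θ ⊤ D) (hs : Symm D) : Function.Surjective θ := by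
  have h := Pool.Agent.H928R2.Tri.top_of_field (fun i => θ (X i)) ((kel_iff θ).1 hθ)
    (fun z => curve hθ ⊤ (fun _ => IntermediateField.mem_top) D hD hb hs z
      IntermediateField.mem_top)
  have h2 : (aeval (fun i => θ (X i)) : PC →ₐ[ℂ] PC).range = ⊤ := h
  rw [← end_eq θ, AlgHom.range_eq_top] at h2
  exact h2

end Pool.Agent.X39.KM
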