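import Mathlib
import Pool.Agent.X39.KM.Comp
import Pool.Agent.H193R5.EG.Main
import Pool.Agent.H193R5.EG.TaskANI
import Pool.Agent.H193R5.EG.TaskSUB
import Pool.Agent.H193R5.EG.TaskSTDP
import Pool.Agent.H87R3.EG.TaskFORM
import Pool.Agent.H68R3.EG.TaskLEMM
import Pool.Agent.H790.EG.TaskRONE
import Pool.Agent.H747R3.EG.TaskRTWO
import Pool.Agent.H510R3.EG.TaskKELP

/-!
# Degree growth for compositions of plane Keller maps
-/

set_option autoImplicit false

open MvPolynomial

namespace Pool.Agent.X39.KM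

open Pool.Agent.H193R5.EG (pbL Endo Chain Std)

theorem chain_rule (θ : PC →ₐ[ℂ] PC) (u : PC) (j : Fin 2) :
    pderiv j (θ u) = θ (pderiv 0 u) * pderiv j (θ (X 0)) + θ (pderiv 1 u) * pderiv j (θ (X 1)) := by
  have h := Pool.Agent.H922R2.deriv_aeval (pderiv j) (fun i => θ (X i)) u
  rw [← end_eq θ, Fin.sum_univ_two] at h
  exact h

theorem pbL_apply (u v : PC) :
    pbL ℂ u v = pderiv 0 u * pderiv 1 v - pderiv 1 u * pderiv 0 v := rfl

theorem Kel.endo {θ : PC →ₐ[ℂ] PC} (h : Kel θ) : Endo (pbL ℂ) θ where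
  inj := h.inj
  comp := by
    obtain ⟨c, hc, hj⟩ := h
    refine ⟨c, hc, fun u v => ?_⟩
    rw [pbL_apply, pbL_apply, smul_eq_C_mul, ← hj, jd, chain_rule θ u 0, chain_rule θ u 1,
      chain_rule θ v 0, chain_rule θ v 1, map_sub, map_mul, map_mul]
    ring

/-- words with `L.length` letters `φ` -/
theorem chain_of {φ : PC →ₐ[ℂ] PC} (hφ : Kel φ) (hns : ¬ Function.Surjective φ)
    {α : PC →ₐ[ℂ] PC} (hα : Kel α) (L : List (PC →ₐ[ℂ] PC)) (hL : ∀ β ∈ L, Kel β) :
    Chain (pbL ℂ) L.length (α * (L.map fun β => φ * β).prod) := by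
  induction L using List.reverseRecOn with
  | nil => exact Chain.zero _ (by simpa using hα.endo)
  | append_singleton L β ih =>
    have h1 := ih fun γ hγ => hL γ (List.mem_append_left _ hγ)
    have h2 := hL β (List.mem_append_right _ (List.mem_singleton_self β))
    rw [List.length_append, List.length_singleton, List.map_append, List.prod_append,
      List.map_singleton, List.prod_singleton, ← mul_assoc]
    refine Chain.succ _ _ _ h1 (hφ.mul h2).endo fun hs => hns fun b => ?_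
    obtain ⟨a, ha⟩ := hs b
    exact ⟨β a, ha⟩

theorem kelP : Pool.Agent.H193R5.EG.Kel (pbL ℂ) := by
  intro φ hφ h
  obtain ⟨κ, hκ, hc⟩ := hφ.comp
  refine Pool.Agent.H510R3.EG.kelp_holds ℂ φ κ hκ ?_ h
  have h1 := hc (X 0) (X 1)
  rw [pbL_apply, pbL_apply] at h1
  rw [Pool.Agent.H88R2.DC.pb, h1]
  simp [smul_eq_C_mul]

/-- exponential growth of the degrees of the images of a nonconstant polynomial -/
theorem growth {φ : PC →ₐ[ℂ] PC} (hφ : Kel φ) (hns : ¬ Function.Surjective φ)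
    {α : PC →ₐ[ℂ] PC} (hα : Kel α) (L : List (PC →ₐ[ℂ] PC)) (hL : ∀ β ∈ L, Kel β)
    (p : PC) (hp : ∀ c : ℂ, p ≠ C c) :
    2 ^ L.length ≤ 18 * ((α * (L.map fun β => φ * β).prod) p).totalDegree ^ 2 := by
  refine Pool.Agent.H193R5.EG.growth_all Pool.Agent.H68R3.EG.lemm_holds
    Pool.Agent.H193R5.EG.sub_holds Pool.Agent.H87R3.EG.form_holds Pool.Agent.H790.EG.rone_holds
    Pool.Agent.H747R3.EG.rtwo_holds Pool.Agent.H193R5.EG.ani_holds
    (Pool.Agent.H193R5.EG.stdp_holds ℂ) (fun v => ?_) kelP L.length _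
    (chain_of hφ hns hα L hL) p (fun c => hp c) _ ?_
  · rw [pbL_apply]; simp
  · show _ ∈ MvPolynomial.restrictSupport ℂ _
    rw [mem_restrictSupport_iff]
    intro d hd
    have := le_totalDegree hd
    rw [Finsupp.sum_fintype _ _ (fun _ => rfl), Fin.sum_univ_two] at this
    simpa using this

end Pool.Agent.X39.KM
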